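import Mathlib

/-!
An addition theorem of Olson/Hamidoune type in a finite abelian group: if `0 ∈ B` generates the
subgroup `K`, there are `h, u ≥ 1` with `h ∣ |G|`, `|B| ≤ (u + 1) h`, and
`|X + B| ≥ |X| + u h` for every nonempty `X ⊆ K` with `X + B ≠ K`.
-/

open Finset
open scoped Pointwise

namespace Pool.Agent.Helper95.SF

variable {G : Type*} [AddCommGroup G] [DecidableEq G]

theorem card_union_add_inter_le (X Y B : Finset G) :
    ((X ∪ Y) + B).card + ((X ∩ Y) + B).card ≤ (X + B).card + (Y + B).card := by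
  rw [Finset.union_add]
  have h1 : (X ∩ Y) + B ⊆ (X + B) ∩ (Y + B) :=
    Finset.subset_inter (Finset.add_subset_add_right Finset.inter_subset_left)
      (Finset.add_subset_add_right Finset.inter_subset_right)
  have h2 := Finset.card_le_card h1
  have h3 := Finset.card_union_add_card_inter (X + B) (Y + B)
  omega

/-- the addition theorem -/
theorem olson [Fintype G] (K : AddSubgroup G) (Kf : Finset G) (hK : ∀ x, x ∈ Kf ↔ x ∈ K)
    (B : Finset G) (h0 : (0 : G) ∈ B) (hB : AddSubgroup.closure (B : Set G) = K)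
    (hX : ∃ X : Finset G, X.Nonempty ∧ X ⊆ Kf ∧ X + B ≠ Kf) :
    ∃ h u : ℕ, 1 ≤ h ∧ 1 ≤ u ∧ h ∣ Fintype.card G ∧ B.card ≤ (u + 1) * h ∧
      (u + 1) * h < Kf.card ∧
      ∀ X : Finset G, X.Nonempty → X ⊆ Kf → X + B ≠ Kf → X.card + u * h ≤ (X + B).card := by
  classical
  have hBK : ∀ b ∈ B, b ∈ K := by
    intro b hb
    rw [← hB]
    exact AddSubgroup.subset_closure hb
  have hadd : ∀ X : Finset G, X ⊆ Kf → X + B ⊆ Kf := by
    intro X hXK z hz
    obtain ⟨x, hx, b, hb, rfl⟩ := Finset.mem_add.1 hz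
    exact (hK _).2 (K.add_mem ((hK _).1 (hXK hx)) (hBK b hb))
  have hsub : ∀ X : Finset G, X ⊆ X + B := by
    intro X z hz
    exact Finset.mem_add.2 ⟨z, hz, 0, h0, add_zero z⟩
  have hcardsub : ∀ X : Finset G, X.card ≤ (X + B).card := fun X =>
    Finset.card_le_card (hsub X)
  -- the family
  set S : Finset (Finset G) := Kf.powerset.filter (fun X => X.Nonempty ∧ X + B ≠ Kf) with hS
  have memS : ∀ X : Finset G, X ∈ S ↔ X.Nonempty ∧ X ⊆ Kf ∧ X + B ≠ Kf := by
    intro X
    simp only [hS, Finset.mem_filter, Finset.mem_powerset]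
    tauto
  set f : Finset G → ℕ := fun X => (X + B).card - X.card with hf
  have hfeq : ∀ X : Finset G, (X + B).card = X.card + f X := by
    intro X
    have := hcardsub X
    simp only [hf]
    omega
  have hSne : S.Nonempty := by
    obtain ⟨X, h1, h2, h3⟩ := hX
    exact ⟨X, (memS X).2 ⟨h1, h2, h3⟩⟩
  obtain ⟨F0, hF0S, hF0⟩ := Finset.exists_min_image S f hSne
  set k := f F0 with hk
  obtain ⟨F, hFS', hF⟩ := Finset.exists_min_image (S.filter (fun X => f X = k)) Finset.card
    ⟨F0, Finset.mem_filter.2 ⟨hF0S, rfl⟩⟩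
  obtain ⟨hFS, hFk⟩ := Finset.mem_filter.1 hFS'
  obtain ⟨hFne, hFK, hFB⟩ := (memS F).1 hFS
  have min1 : ∀ Y ∈ S, k ≤ f Y := fun Y hY => hF0 Y hY
  have min2 : ∀ Y ∈ S, f Y = k → F.card ≤ Y.card := fun Y hY hY2 =>
    hF Y (Finset.mem_filter.2 ⟨hY, hY2⟩)
  have hFcard : (F + B).card = F.card + k := by rw [hfeq F, hFk]
  have hFBK : F + B ⊆ Kf := hadd F hFK
  -- the dual fragment
  have hdual : 2 * F.card + k ≤ Kf.card := by
    set C := Kf \ (F + B) with hC
    have hCcard : C.card = Kf.card - (F.card + k) := by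
      rw [hC, Finset.card_sdiff_of_subset hFBK, hFcard]
    have hCne : C.Nonempty := by
      rw [hC, Finset.sdiff_nonempty]
      intro h
      exact hFB (Finset.Subset.antisymm hFBK h)
    have hle : (F + B).card ≤ Kf.card := Finset.card_le_card hFBK
    have hCpos : 0 < C.card := hCne.card_pos
    have hnegK : -C ⊆ Kf := by
      intro z hz
      rw [Finset.mem_neg] at hz
      obtain ⟨c, hc, rfl⟩ := hz
      exact (hK _).2 (K.neg_mem ((hK _).1 (Finset.sdiff_subset hc)))
    have hdisj : Disjoint (-C + B) (-F) := by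
      rw [Finset.disjoint_left]
      intro z hz hz2
      obtain ⟨c', hc', b, hb, rfl⟩ := Finset.mem_add.1 hz
      obtain ⟨c, hc, rfl⟩ := Finset.mem_neg.1 hc'
      obtain ⟨g, hg, hge⟩ := Finset.mem_neg.1 hz2
      have : c = g + b := by
        have h : -g + c + g = -c + b + c + g := congrArg (fun t => t + c + g) hge
        have e1 : -g + c + g = c := by abel
        have e2 : -c + b + c + g = g + b := by abel
        rw [e1, e2] at h
        exact h
      have hc2 := (Finset.mem_sdiff.1 hc).2
      exact hc2 (this ▸ Finset.add_mem_add hg hb)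
    have hnegFK : -F ⊆ Kf := by
      intro z hz
      obtain ⟨c, hc, rfl⟩ := Finset.mem_neg.1 hz
      exact (hK _).2 (K.neg_mem ((hK _).1 (hFK hc)))
    have hsum : (-C + B).card + F.card ≤ Kf.card := by
      have h1 : (-C + B) ∪ (-F) ⊆ Kf := Finset.union_subset (hadd _ hnegK) hnegFK
      have h2 := Finset.card_le_card h1
      rw [Finset.card_union_of_disjoint hdisj, Finset.card_neg] at h2
      exact h2
    have hneK : -C + B ≠ Kf := by
      intro h
      have : 0 < F.card := hFne.card_pos
      rw [h] at hsum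
      omega
    have hCS : -C ∈ S := (memS _).2 ⟨hCne.neg, hnegK, hneK⟩
    have h1 := min1 _ hCS
    have h2 := hfeq (-C)
    rw [Finset.card_neg] at h2
    have h3 : f (-C) = k := by omega
    have h4 := min2 _ hCS h3
    rw [Finset.card_neg] at h4
    omega
  -- translates
  have hcardv : ∀ g : G, (g +ᵥ F).card = F.card := fun g => Finset.card_vadd_finset g F
  have hvB : ∀ g : G, (g +ᵥ F) + B = g +ᵥ (F + B) := by
    intro g
    rw [← Finset.singleton_vadd, ← Finset.singleton_vadd]
    simp only [vadd_eq_add, add_assoc]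
  have hinter : ∀ g ∈ K, (F ∩ (g +ᵥ F)).Nonempty → g +ᵥ F = F := by
    intro g hg hne
    by_contra hcon
    set Y := g +ᵥ F with hY
    have hYK : Y ⊆ Kf := by
      intro z hz
      rw [hY, Finset.mem_vadd_finset] at hz
      obtain ⟨w, hw, rfl⟩ := hz
      exact (hK _).2 (K.add_mem hg ((hK _).1 (hFK hw)))
    have hYcard : Y.card = F.card := hcardv g
    have hYB : (Y + B).card = F.card + k := by
      rw [hY, hvB g, Finset.card_vadd_finset, hFcard]
    have hIlt : (F ∩ Y).card < F.card := by
      apply Finset.card_lt_card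
      rw [Finset.ssubset_iff_subset_ne]
      refine ⟨Finset.inter_subset_left, fun h => hcon ?_⟩
      have h1 : F ⊆ Y := by
        rw [← h]; exact Finset.inter_subset_right
      exact (Finset.eq_of_subset_of_card_le h1 (le_of_eq hYcard)).symm
    have hIK : F ∩ Y ⊆ Kf := Finset.inter_subset_left.trans hFK
    have hIB : (F ∩ Y) + B ≠ Kf := by
      intro h
      have h1 : (F ∩ Y) + B ⊆ F + B := Finset.add_subset_add_right Finset.inter_subset_left
      rw [h] at h1
      exact hFB (Finset.Subset.antisymm hFBK h1)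
    have hIS : F ∩ Y ∈ S := (memS _).2 ⟨hne, hIK, hIB⟩
    have hI1 := min1 _ hIS
    have hI2 : f (F ∩ Y) ≠ k := fun h => by
      have := min2 _ hIS h
      omega
    have hI3 := hfeq (F ∩ Y)
    have hsm := card_union_add_inter_le F Y B
    have hun := Finset.card_union_add_card_inter F Y
    have hU3 := hfeq (F ∪ Y)
    have hUK : F ∪ Y ⊆ Kf := Finset.union_subset hFK hYK
    have hUne : (F ∪ Y).Nonempty := hFne.mono Finset.subset_union_left
    have hUB : (F ∪ Y) + B = Kf := by
      by_contra h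
      have hUS : F ∪ Y ∈ S := (memS _).2 ⟨hUne, hUK, h⟩
      have := min1 _ hUS
      omega
    rw [hUB] at hsm
    omega
  -- differences of elements of `F` stabilise `F`
  have hstab : ∀ x ∈ F, ∀ y ∈ F, (x - y) +ᵥ F = F := by
    intro x hx y hy
    apply hinter _ (K.sub_mem ((hK _).1 (hFK hx)) ((hK _).1 (hFK hy)))
    refine ⟨x, Finset.mem_inter.2 ⟨hx, ?_⟩⟩
    rw [Finset.mem_vadd_finset]
    exact ⟨y, hy, by simp⟩
  -- the translates `b + F` are equal or disjoint
  set P : Finset (Finset G) := B.image (fun b => b +ᵥ F) with hP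
  have hPcard : ∀ Y ∈ P, Y.card = F.card := by
    intro Y hY
    obtain ⟨b, hb, rfl⟩ := Finset.mem_image.1 hY
    exact hcardv b
  have hPdisj : ∀ Y ∈ P, ∀ Z ∈ P, Y ≠ Z → Disjoint Y Z := by
    intro Y hY Z hZ hne
    obtain ⟨b, hb, rfl⟩ := Finset.mem_image.1 hY
    obtain ⟨c, hc, rfl⟩ := Finset.mem_image.1 hZ
    rw [Finset.disjoint_left]
    intro w hw1 hw2
    apply hne
    obtain ⟨x, hx, hxe⟩ := Finset.mem_vadd_finset.1 hw1
    obtain ⟨y, hy, hye⟩ := Finset.mem_vadd_finset.1 hw2
    have h1 : b + x = c + y := by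
      have := hxe.trans hye.symm
      simpa [vadd_eq_add] using this
    have h2 : b = c + (y - x) := by
      have : b = c + y - x := by rw [← h1]; abel
      rw [this]; abel
    have h3 := hstab y hy x hx
    calc b +ᵥ F = (c + (y - x)) +ᵥ F := by rw [← h2]
      _ = c +ᵥ ((y - x) +ᵥ F) := by rw [add_vadd]
      _ = c +ᵥ F := by rw [h3]
  have hPU : P.biUnion id = F + B := by
    ext z
    simp only [Finset.mem_biUnion, id, hP, Finset.mem_image, Finset.mem_add]
    constructor
    · rintro ⟨Y, ⟨b, hb, rfl⟩, hz⟩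
      obtain ⟨x, hx, rfl⟩ := Finset.mem_vadd_finset.1 hz
      exact ⟨x, hx, b, hb, by simp [vadd_eq_add, add_comm]⟩
    · rintro ⟨x, hx, b, hb, rfl⟩
      refine ⟨b +ᵥ F, ⟨b, hb, rfl⟩, ?_⟩
      rw [Finset.mem_vadd_finset]
      exact ⟨x, hx, by simp [vadd_eq_add, add_comm]⟩
  have hcount : (F + B).card = P.card * F.card := by
    rw [← hPU, Finset.card_biUnion (by
      intro Y hY Z hZ hne
      exact hPdisj Y hY Z hZ hne)]
    rw [Finset.sum_congr rfl (fun Y hY => show (id Y).card = F.card from hPcard Y hY)]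
    simp
  have hFpos : 0 < F.card := hFne.card_pos
  have h0P : F ∈ P := by
    rw [hP, Finset.mem_image]
    exact ⟨0, h0, by simp⟩
  -- some translate is different
  have hP2 : 2 ≤ P.card := by
    by_contra hlt
    have hP1 : P.card ≤ 1 := by omega
    have hall : ∀ b ∈ B, b +ᵥ F = F := by
      intro b hb
      exact Finset.card_le_one.1 hP1 _ (Finset.mem_image.2 ⟨b, hb, rfl⟩) _ h0P
    have hKstab : K ≤ AddAction.stabilizer G F := by
      rw [← hB, AddSubgroup.closure_le]
      intro b hb
      exact hall b hb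
    obtain ⟨x0, hx0⟩ := hFne
    have : F = Kf := by
      apply Finset.Subset.antisymm hFK
      intro z hz
      have hzK : z - x0 ∈ K := K.sub_mem ((hK _).1 hz) ((hK _).1 (hFK hx0))
      have h1 : (z - x0) +ᵥ F = F := hKstab hzK
      rw [← h1, Finset.mem_vadd_finset]
      exact ⟨x0, hx0, by simp⟩
    apply hFB
    apply Finset.Subset.antisymm hFBK
    calc Kf = F := this.symm
      _ ⊆ F + B := hsub F
  obtain ⟨u, hu⟩ : ∃ u, P.card = u + 1 := ⟨P.card - 1, by omega⟩
  have hku : k = u * F.card := by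
    rw [hu] at hcount
    have : F.card + k = (u + 1) * F.card := by rw [← hFcard, hcount]
    have h2 : (u + 1) * F.card = u * F.card + F.card := by ring
    omega
  refine ⟨F.card, u, hFpos, by omega, ?_, ?_, ?_, ?_⟩
  · -- `F` is a coset of its stabiliser
    obtain ⟨x0, hx0⟩ := hFne
    have e : Nat.card (AddAction.stabilizer G F) = Nat.card F := by
      refine Nat.card_congr
        { toFun := fun g => ⟨(g : G) + x0, ?_⟩
          invFun := fun y => ⟨(y : G) - x0, hstab y y.2 x0 hx0⟩
          left_inv := ?_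
          right_inv := ?_ }
      · have h1 : (g : G) +ᵥ F = F := g.2
        have h2 : (g : G) +ᵥ x0 ∈ (g : G) +ᵥ F := Finset.vadd_mem_vadd_finset hx0
        rw [h1] at h2
        exact h2
      · intro g
        apply Subtype.ext
        simp
      · intro y
        apply Subtype.ext
        simp
    have e2 : Nat.card F = F.card := by simp
    rw [← e2, ← e, ← Nat.card_eq_fintype_card]
    exact AddSubgroup.card_addSubgroup_dvd_card _
  · obtain ⟨x0, hx0⟩ := hFne
    calc B.card = (x0 +ᵥ B).card := (Finset.card_vadd_finset _ _).symm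
      _ ≤ (F + B).card := by
          apply Finset.card_le_card
          intro z hz
          obtain ⟨b, hb, rfl⟩ := Finset.mem_vadd_finset.1 hz
          exact Finset.add_mem_add hx0 hb
      _ = (u + 1) * F.card := by rw [hcount, hu]
  · rw [← hu, ← hcount]
    apply Finset.card_lt_card
    rw [Finset.ssubset_iff_subset_ne]
    exact ⟨hFBK, hFB⟩
  · intro X hXne hXK hXB
    have h1 := min1 X ((memS X).2 ⟨hXne, hXK, hXB⟩)
    rw [hfeq X, ← hku]
    omega

end Pool.Agent.Helper95.SF
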