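import Mathlib
import Pool.Agent.Helper95.SF.Olson

/-!
`[0,s]`-sum-free sets in finite abelian groups: the core inequality.
-/

open Finset
open scoped Pointwise

namespace Pool.Agent.Helper95.SF

variable {G : Type*} [AddCommGroup G] [DecidableEq G]

/-- The `h`-fold sumset `hA`, with `0A = {0}`. -/
def nsum (A : Finset G) : ℕ → Finset G
  | 0 => {0}
  | h + 1 => nsum A h + A

/-- `A` is `[0,s]`-sum-free: the sets `0A, 1A, …, sA` are pairwise disjoint. -/
def IsSumFree (s : ℕ) (A : Finset G) : Prop :=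
  ∀ h₁ h₂ : ℕ, h₁ ≤ s → h₂ ≤ s → h₁ ≠ h₂ → Disjoint (nsum A h₁) (nsum A h₂)

/-- `⌈3 (s+1)² / 4⌉` -/
def D (s : ℕ) : ℕ := (3 * (s + 1) ^ 2 + 3) / 4

theorem nsum_zero (A : Finset G) : nsum A 0 = {0} := rfl

theorem nsum_succ (A : Finset G) (h : ℕ) : nsum A (h + 1) = nsum A h + A := rfl

theorem nsum_one (A : Finset G) : nsum A 1 = A := by
  rw [nsum_succ, nsum_zero, Finset.singleton_zero, zero_add]

theorem nsum_add (A : Finset G) (i j : ℕ) : nsum A (i + j) = nsum A i + nsum A j := by
  induction j with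
  | zero => rw [nsum_zero, Nat.add_zero, Finset.singleton_zero, add_zero]
  | succ j ih => rw [← Nat.add_assoc, nsum_succ, nsum_succ, ih, add_assoc]

theorem nsum_nonempty {A : Finset G} (hA : A.Nonempty) (j : ℕ) : (nsum A j).Nonempty := by
  induction j with
  | zero => exact ⟨0, by rw [nsum_zero]; simp⟩
  | succ j ih => rw [nsum_succ]; exact ih.add hA

/-- `jA - kA` -/
def S (A : Finset G) (j k : ℕ) : Finset G := nsum A j - nsum A k

theorem S_neg (A : Finset G) (j k : ℕ) : -(S A j k) = S A k j := by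
  unfold S
  rw [neg_sub]

theorem S_card_comm (A : Finset G) (j k : ℕ) : (S A j k).card = (S A k j).card := by
  rw [← S_neg, Finset.card_neg]

theorem S_succ (A : Finset G) (j k : ℕ) : S A (j + 1) k = S A j k + A := by
  unfold S
  rw [nsum_succ, add_sub_right_comm]

theorem S_one_zero (A : Finset G) : S A 1 0 = A := by
  unfold S
  rw [nsum_one, nsum_zero]
  simp

theorem S_nonempty {A : Finset G} (hA : A.Nonempty) (j k : ℕ) : (S A j k).Nonempty :=
  (nsum_nonempty hA j).sub (nsum_nonempty hA k)

theorem S_disjoint {s : ℕ} {A : Finset G} (hA : IsSumFree s A) {j k j' k' : ℕ}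
    (h1 : j + k' ≤ s) (h2 : j' + k ≤ s) (h3 : j + k' ≠ j' + k) :
    Disjoint (S A j k) (S A j' k') := by
  rw [Finset.disjoint_left]
  intro y hy hy'
  unfold S at hy hy'
  obtain ⟨a, ha, b, hb, hab⟩ := Finset.mem_sub.1 hy
  obtain ⟨a', ha', b', hb', hab'⟩ := Finset.mem_sub.1 hy'
  have h4 : a + b' ∈ nsum A (j + k') := by
    rw [nsum_add]; exact Finset.add_mem_add ha hb'
  have h5 : a' + b ∈ nsum A (j' + k) := by
    rw [nsum_add]; exact Finset.add_mem_add ha' hb
  have h6 : a + b' = a' + b := by
    have h7 : a = y + b := by rw [← hab]; abel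
    have h8 : a' = y + b' := by rw [← hab']; abel
    rw [h7, h8]; abel
  have h9 := hA _ _ h1 h2 h3
  rw [Finset.disjoint_left] at h9
  exact h9 h4 (h6 ▸ h5)

section coset

variable (K : AddSubgroup G) (x : G)

theorem nsum_coset {A : Finset G} (hAK : ∀ a ∈ A, a - x ∈ K) (j : ℕ) :
    ∀ y ∈ nsum A j, y - j • x ∈ K := by
  induction j with
  | zero =>
    intro y hy
    rw [nsum_zero, Finset.mem_singleton] at hy
    subst hy
    simp
  | succ j ih =>
    intro y hy
    rw [nsum_succ] at hy
    obtain ⟨a, ha, b, hb, rfl⟩ := Finset.mem_add.1 hy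
    have h1 := K.add_mem (ih a ha) (hAK b hb)
    have h2 : a + b - (j + 1) • x = (a - j • x) + (b - x) := by
      rw [succ_nsmul]; abel
    rw [h2]
    exact h1

theorem S_coset {A : Finset G} (hAK : ∀ a ∈ A, a - x ∈ K) (j k : ℕ) :
    ∀ y ∈ S A j k, y - (j • x - k • x) ∈ K := by
  intro y hy
  unfold S at hy
  obtain ⟨a, ha, b, hb, rfl⟩ := Finset.mem_sub.1 hy
  have h1 := K.sub_mem (nsum_coset K x hAK j a ha) (nsum_coset K x hAK k b hb)
  have h2 : a - b - (j • x - k • x) = (a - j • x) - (b - k • x) := by abel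
  rw [h2]
  exact h1

/-- one step of growth, translated -/
theorem step {A : Finset G} (Kf : Finset G) (hK : ∀ y, y ∈ Kf ↔ y ∈ K) (g : ℕ)
    (hol : ∀ X : Finset G, X.Nonempty → X ⊆ Kf → X + (-x +ᵥ A) ≠ Kf →
      X.card + g ≤ (X + (-x +ᵥ A)).card)
    (X : Finset G) (hX : X.Nonempty) (c : G) (hXc : ∀ y ∈ X, y - c ∈ K)
    (z : G) (hz : z - c - x ∈ K) (hz2 : z ∉ X + A) : X.card + g ≤ (X + A).card := by
  have e : (-c +ᵥ X) + (-x +ᵥ A) = (-c + -x) +ᵥ (X + A) := by
    rw [← Finset.singleton_vadd, ← Finset.singleton_vadd, ← Finset.singleton_vadd,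
      ← Finset.singleton_add_singleton]
    simp only [vadd_eq_add]
    abel
  have h1 := hol (-c +ᵥ X) (hX.vadd_finset) (by
    intro w hw
    obtain ⟨y, hy, rfl⟩ := Finset.mem_vadd_finset.1 hw
    rw [hK, vadd_eq_add, neg_add_eq_sub]
    exact hXc y hy) (by
    intro h
    have h2 : z - c - x ∈ Kf := (hK _).2 hz
    rw [← h, e] at h2
    obtain ⟨w, hw, hwe⟩ := Finset.mem_vadd_finset.1 h2
    apply hz2
    have : w = z := by
      rw [vadd_eq_add] at hwe
      have h3 : w = (z - c - x) + (c + x) := by rw [← hwe]; abel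
      rw [h3]; abel
    exact this ▸ hw)
  rw [e, Finset.card_vadd_finset, Finset.card_vadd_finset] at h1
  exact h1

/-- `|jA - kA| ≥ |A| + (j+k-1) g` unless `jA - kA` is a full coset -/
theorem growth {A : Finset G} (Kf : Finset G) (hK : ∀ y, y ∈ Kf ↔ y ∈ K) (g : ℕ)
    (hA : A.Nonempty) (hAK : ∀ a ∈ A, a - x ∈ K)
    (hol : ∀ X : Finset G, X.Nonempty → X ⊆ Kf → X + (-x +ᵥ A) ≠ Kf →
      X.card + g ≤ (X + (-x +ᵥ A)).card) (hxA : x ∈ A)
    (j k : ℕ) (hjk : 1 ≤ j + k) (z : G) (hz : z - (j • x - k • x) ∈ K) (hz2 : z ∉ S A j k) :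
    A.card + (j + k - 1) * g ≤ (S A j k).card := by
  have P_step : ∀ j k : ℕ, 1 ≤ j + k →
      (∀ z : G, z - (j • x - k • x) ∈ K → z ∉ S A j k →
        A.card + (j + k - 1) * g ≤ (S A j k).card) →
      (∀ z : G, z - ((j + 1) • x - k • x) ∈ K → z ∉ S A (j + 1) k →
        A.card + (j + 1 + k - 1) * g ≤ (S A (j + 1) k).card) := by
    intro j k hjk ih z hz hz2
    have h1 : (z - x) ∉ S A j k := by
      intro h
      apply hz2
      rw [S_succ]
      exact Finset.mem_add.2 ⟨z - x, h, x, hxA, by abel⟩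
    have h2 : z - x - (j • x - k • x) ∈ K := by
      have : z - x - (j • x - k • x) = z - ((j + 1) • x - k • x) := by
        rw [succ_nsmul]; abel
      rw [this]; exact hz
    have h3 := ih (z - x) h2 h1
    have h4 := step K x Kf hK g hol (S A j k) (S_nonempty hA j k) (j • x - k • x)
      (S_coset K x hAK j k) z (by
        have : z - (j • x - k • x) - x = z - x - (j • x - k • x) := by abel
        rw [this]; exact h2) (by rw [← S_succ]; exact hz2)
    rw [← S_succ] at h4
    obtain ⟨n, hn⟩ : ∃ n, j + k = n + 1 := ⟨j + k - 1, by omega⟩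
    have e1 : j + k - 1 = n := by omega
    have e2 : j + 1 + k - 1 = n + 1 := by omega
    rw [e1] at h3
    rw [e2]
    have e3 : (n + 1) * g = n * g + g := by ring
    rw [e3]
    omega
  have P_zero : ∀ j : ℕ, ∀ z : G, z - ((j + 1) • x - 0 • x) ∈ K → z ∉ S A (j + 1) 0 →
        A.card + (j + 1 + 0 - 1) * g ≤ (S A (j + 1) 0).card := by
    intro j
    induction j with
    | zero =>
      intro z _ _
      rw [S_one_zero]
      simp
    | succ j ih => exact P_step (j + 1) 0 (by omega) ih
  induction j generalizing z with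
  | zero =>
    obtain ⟨n, rfl⟩ : ∃ n, k = n + 1 := ⟨k - 1, by omega⟩
    have h1 := P_zero n (-z) (by
      have : -z - ((n + 1) • x - 0 • x) = -(z - (0 • x - (n + 1) • x)) := by abel
      rw [this]
      exact K.neg_mem hz) (by
      intro h
      apply hz2
      rw [← S_neg, Finset.mem_neg']
      exact h)
    rw [S_card_comm A 0 (n + 1)]
    have e1 : 0 + (n + 1) - 1 = n + 1 + 0 - 1 := by omega
    rw [e1]
    exact h1
  | succ j ih =>
    rcases Nat.eq_zero_or_pos (j + k) with h0 | hpos
    · have hj : j = 0 := by omega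
      have hk : k = 0 := by omega
      subst hj hk
      exact P_zero 0 z hz hz2
    · exact P_step j k hpos (fun z hz hz2 => ih hpos z hz hz2) z hz hz2

end coset

/-! ### arithmetic of the index set -/

theorem sum_min (J n : ℕ) :
    2 * ∑ i ∈ Finset.range (J + n), min i J + J = J * J + 2 * J * n := by
  induction n with
  | zero =>
    have h1 : ∑ i ∈ Finset.range (J + 0), min i J = ∑ i ∈ Finset.range J, i := by
      apply Finset.sum_congr (by simp)
      intro i hi
      rw [Finset.mem_range] at hi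
      omega
    rw [h1, mul_comm 2, Finset.sum_range_id_mul_two]
    rcases J with _ | J
    · simp
    · simp only [Nat.add_sub_cancel]; ring
  | succ n ih =>
    rw [← Nat.add_assoc, Finset.sum_range_succ]
    have h1 : min (J + n) J = J := by omega
    rw [h1]
    have : 2 * J * (n + 1) = 2 * J * n + 2 * J := by ring
    rw [this]
    omega

theorem sum_jk (s : ℕ) :
    ∑ i ∈ Finset.range (s + 1), (min i ((s + 1) / 2) + min (s - i) (s / 2)) + (s + 1) = D s := by
  rw [Finset.sum_add_distrib]
  have h1 : ∑ i ∈ Finset.range (s + 1), min (s - i) (s / 2)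
      = ∑ i ∈ Finset.range (s + 1), min i (s / 2) := by
    have := Finset.sum_range_reflect (fun i => min i (s / 2)) (s + 1)
    simpa using this
  rw [h1]
  rcases Nat.even_or_odd' s with ⟨t, rfl | rfl⟩
  · have e1 : (2 * t + 1) / 2 = t := by omega
    have e2 : 2 * t / 2 = t := by omega
    rw [e1, e2]
    have h2 := sum_min t (t + 1)
    have e3 : t + (t + 1) = 2 * t + 1 := by ring
    rw [e3] at h2
    have h3 : D (2 * t) = 3 * t ^ 2 + 3 * t + 1 := by
      unfold D
      have : 3 * (2 * t + 1) ^ 2 + 3 = 4 * (3 * t ^ 2 + 3 * t + 1) + 2 := by ring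
      rw [this]; omega
    rw [h3]
    nlinarith
  · have e1 : (2 * t + 1 + 1) / 2 = t + 1 := by omega
    have e2 : (2 * t + 1) / 2 = t := by omega
    rw [e1, e2]
    have h2 := sum_min (t + 1) (t + 1)
    have h4 := sum_min t (t + 2)
    have e3 : (t + 1) + (t + 1) = 2 * t + 1 + 1 := by ring
    have e4 : t + (t + 2) = 2 * t + 1 + 1 := by ring
    rw [e3] at h2
    rw [e4] at h4
    have h3 : D (2 * t + 1) = 3 * (t + 1) ^ 2 := by
      unfold D
      have : 3 * (2 * t + 1 + 1) ^ 2 + 3 = 4 * (3 * (t + 1) ^ 2) + 3 := by ring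
      rw [this]; omega
    rw [h3]
    nlinarith

/-- the core inequality -/
theorem core [Fintype G] (s : ℕ) (hs : 2 ≤ s) (A : Finset G) (hA : IsSumFree s A)
    (hne : A.Nonempty) (m : ℕ)
    (hm : ∀ d : ℕ, d ∣ AddMonoid.exponent G → s < d → m ≤ d) :
    A.card * m ≤ Fintype.card G ∨
    ∃ h u : ℕ, 1 ≤ h ∧ 1 ≤ u ∧ h ∣ Fintype.card G ∧ A.card ≤ (u + 1) * h ∧
      (u + 1) * h < Fintype.card G ∧
      ((s + 1) * A.card + (D s - 2 * (s + 1)) * (u * h) ≤ Fintype.card G ∨
        ∃ r : ℕ, s + 2 ≤ 2 * r ∧ r ≤ s ∧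
          r * (2 * A.card + (2 * s - r - 2) * (u * h)) ≤ Fintype.card G) := by
  classical
  obtain ⟨x, hxA⟩ := id hne
  set B : Finset G := -x +ᵥ A with hB
  set K : AddSubgroup G := AddSubgroup.closure (B : Set G) with hKdef
  set Kf : Finset G := Finset.univ.filter (fun y => y ∈ K) with hKf
  have hK : ∀ y, y ∈ Kf ↔ y ∈ K := by
    intro y; simp [hKf]
  have hBmem : ∀ a ∈ A, a - x ∈ B := by
    intro a ha
    rw [hB, Finset.mem_vadd_finset]
    exact ⟨a, ha, by rw [vadd_eq_add]; abel⟩
  have h0B : (0 : G) ∈ B := by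
    have := hBmem x hxA
    rwa [sub_self] at this
  have hAK : ∀ a ∈ A, a - x ∈ K := fun a ha => AddSubgroup.subset_closure (hBmem a ha)
  have hKcard : Nat.card K = Kf.card := by
    rw [Nat.card_eq_fintype_card, hKf, Fintype.card_subtype]
  -- cardinality of a subset of a coset
  have hcoset : ∀ (X : Finset G) (c : G), (∀ y ∈ X, y - c ∈ K) → X.card ≤ Kf.card := by
    intro X c hX
    rw [← Finset.card_vadd_finset (-c) X]
    apply Finset.card_le_card
    intro w hw
    obtain ⟨y, hy, rfl⟩ := Finset.mem_vadd_finset.1 hw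
    rw [hK, vadd_eq_add, neg_add_eq_sub]
    exact hX y hy
  set q : G ⧸ K := (QuotientAddGroup.mk x : G ⧸ K) with hq
  set r : ℕ := addOrderOf q with hr
  have hrpos : 0 < r := addOrderOf_pos q
  have hrx : r • x ∈ K := by
    have h1 : r • q = 0 := addOrderOf_nsmul_eq_zero q
    rw [hq] at h1
    rw [← QuotientAddGroup.eq_zero_iff]
    exact h1
  have hrK : r * Kf.card ≤ Fintype.card G := by
    have h1 : r ∣ Nat.card (G ⧸ K) := addOrderOf_dvd_natCard q
    have h2 := AddSubgroup.card_eq_card_quotient_mul_card_addSubgroup K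
    rw [← Nat.card_eq_fintype_card, h2, hKcard]
    have h3 : 0 < Nat.card (G ⧸ K) := Nat.card_pos
    exact Nat.mul_le_mul_right _ (Nat.le_of_dvd h3 h1)
  rcases Nat.lt_or_ge s r with hsr | hrs
  · left
    have h1 : r ∣ AddMonoid.exponent G := by
      apply addOrderOf_dvd_of_nsmul_eq_zero
      rw [hq]
      have : AddMonoid.exponent G • x = 0 := AddMonoid.exponent_nsmul_eq_zero x
      have h2 : AddMonoid.exponent G • (QuotientAddGroup.mk x : G ⧸ K)
          = QuotientAddGroup.mk (AddMonoid.exponent G • x) := rfl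
      rw [h2, this]
      rfl
    have h2 := hm r h1 hsr
    have h3 := hcoset A x hAK
    calc A.card * m ≤ Kf.card * r := Nat.mul_le_mul h3 h2
      _ = r * Kf.card := mul_comm _ _
      _ ≤ _ := hrK
  right
  -- non-fullness
  have hnf : ∀ j k j' k' : ℕ, j + k' ≤ s → j' + k ≤ s → j + k' ≠ j' + k →
      (j' • x - k' • x) - (j • x - k • x) ∈ K →
      ∃ z : G, z - (j • x - k • x) ∈ K ∧ z ∉ S A j k := by
    intro j k j' k' h1 h2 h3 h4
    obtain ⟨z, hz⟩ := S_nonempty hne j' k'
    refine ⟨z, ?_, ?_⟩
    · have h5 := K.add_mem (S_coset K x hAK j' k' z hz) h4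
      have h6 : z - (j' • x - k' • x) + ((j' • x - k' • x) - (j • x - k • x))
          = z - (j • x - k • x) := by abel
      rw [← h6]
      exact h5
    · intro h
      have h5 := S_disjoint hA h1 h2 h3
      rw [Finset.disjoint_left] at h5
      exact h5 h hz
  -- the constants of the addition theorem
  obtain ⟨h, u, hh1, hu1, hhG, hBu, hulK, hol⟩ := olson K Kf hK B h0B rfl (by
    refine ⟨{0}, ⟨0, by simp⟩, ?_, ?_⟩
    · intro y hy
      rw [Finset.mem_singleton] at hy
      subst hy
      exact (hK _).2 K.zero_mem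
    · intro hfull
      -- `A` would be a full coset, but `(1 + r)A` or so is disjoint from it
      have hfull' : ({0} : Finset G) + B = B := by rw [Finset.singleton_zero, zero_add]
      rw [hfull'] at hfull
      -- compare `S A 1 0` with `S A 1 r` or `S A (1+r) 0`
      obtain ⟨z, hz1, hz2⟩ : ∃ z : G, z - (1 • x - 0 • x) ∈ K ∧ z ∉ S A 1 0 := by
        rcases Nat.lt_or_ge r s with hlt | hge
        · apply hnf 1 0 (1 + r) 0 (by omega) (by omega) (by omega)
          have : ((1 + r) • x - 0 • x) - (1 • x - 0 • x) = r • x := by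
            rw [add_nsmul]; simp
          rw [this]
          exact hrx
        · have hre : r = s := by omega
          obtain ⟨p, hp⟩ : ∃ p, s = p + 1 := ⟨s - 1, by omega⟩
          apply hnf 1 0 0 p (by omega) (by omega) (by omega)
          have : ((0 • x - p • x) - (1 • x - 0 • x)) = -(r • x) := by
            have hrp : r = p + 1 := by omega
            have h9 : (p + 1) • x = p • x + x := succ_nsmul x p
            rw [hrp, h9, zero_nsmul, one_nsmul]; abel
          rw [this]
          exact K.neg_mem hrx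
      rw [S_one_zero] at hz2
      have h3 : z - x ∈ B := by
        rw [hfull, hK]
        simpa using hz1
      apply hz2
      rw [hB, Finset.mem_vadd_finset] at h3
      obtain ⟨a, ha, hae⟩ := h3
      have : a = z := by
        rw [vadd_eq_add] at hae
        have h5 : a = (z - x) + x := by rw [← hae]; abel
        rw [h5]; abel
      exact this ▸ ha)
  have hBA : B.card = A.card := Finset.card_vadd_finset _ _
  refine ⟨h, u, hh1, hu1, hhG, hBA ▸ hBu, lt_of_lt_of_le hulK (Finset.card_le_univ _), ?_⟩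
  have hgr := growth K x (A := A) Kf hK (u * h) hne hAK hol hxA
  rcases Nat.lt_or_ge (2 * r) (s + 2) with hr2 | hr2
  · left
    set J := (s + 1) / 2 with hJ
    set K0 := s / 2 with hK0
    have hJK : J + K0 = s := by omega
    have hJ1 : 1 ≤ J := by omega
    have hK1 : 1 ≤ K0 := by omega
    -- coset of the `i`-th set
    have hcos : ∀ i : ℕ, i ≤ s →
        (min i J) • x - (min (s - i) K0) • x = (i : ℤ) • x - (K0 : ℤ) • x := by
      intro i hi
      have e : ((min i J : ℕ) : ℤ) - ((min (s - i) K0 : ℕ) : ℤ) = (i : ℤ) - (K0 : ℤ) := by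
        omega
      rw [← natCast_zsmul x (min i J), ← natCast_zsmul x (min (s - i) K0), ← sub_smul,
        ← sub_smul, e]
    have hbig : ∀ i ∈ Finset.range (s + 1),
        A.card + (min i J + min (s - i) K0 - 1) * (u * h)
          ≤ (S A (min i J) (min (s - i) K0)).card := by
      intro i hi
      rw [Finset.mem_range] at hi
      obtain ⟨z, hz1, hz2⟩ : ∃ z : G, z - ((min i J) • x - (min (s - i) K0) • x) ∈ K ∧
          z ∉ S A (min i J) (min (s - i) K0) := by
        rcases Nat.lt_or_ge s (i + r) with hlt | hge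
        · have hir : r ≤ i := by omega
          apply hnf _ _ (min (i - r) J) (min (s - (i - r)) K0) (by omega) (by omega) (by omega)
          rw [hcos i (by omega), hcos (i - r) (by omega)]
          have e : ((i - r : ℕ) : ℤ) = (i : ℤ) - r := by omega
          rw [e, sub_smul]
          have : ((i : ℤ) • x - (r : ℤ) • x - (K0 : ℤ) • x) - ((i : ℤ) • x - (K0 : ℤ) • x)
              = -(r • x) := by
            rw [natCast_zsmul x r]; abel
          rw [this]
          exact K.neg_mem hrx
        · apply hnf _ _ (min (i + r) J) (min (s - (i + r)) K0) (by omega) (by omega) (by omega)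
          rw [hcos i (by omega), hcos (i + r) (by omega)]
          have e : ((i + r : ℕ) : ℤ) = (i : ℤ) + r := by omega
          rw [e, add_smul]
          have : ((i : ℤ) • x + (r : ℤ) • x - (K0 : ℤ) • x) - ((i : ℤ) • x - (K0 : ℤ) • x)
              = r • x := by
            rw [natCast_zsmul x r]; abel
          rw [this]
          exact hrx
      exact hgr _ _ (by omega) z hz1 hz2
    have hdisj : ∀ i ∈ Finset.range (s + 1), ∀ i' ∈ Finset.range (s + 1), i ≠ i' →
        Disjoint (S A (min i J) (min (s - i) K0)) (S A (min i' J) (min (s - i') K0)) := by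
      intro i hi i' hi' hii
      rw [Finset.mem_range] at hi hi'
      exact S_disjoint hA (by omega) (by omega) (by omega)
    have hU : ∑ i ∈ Finset.range (s + 1), (S A (min i J) (min (s - i) K0)).card
        ≤ Fintype.card G := by
      rw [← Finset.card_biUnion hdisj]
      exact Finset.card_le_univ _
    have hL := Finset.sum_le_sum hbig
    rw [Finset.sum_add_distrib, Finset.sum_const, Finset.card_range, smul_eq_mul,
      ← Finset.sum_mul] at hL
    have hT : ∑ i ∈ Finset.range (s + 1), (min i J + min (s - i) K0 - 1)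
        = D s - 2 * (s + 1) := by
      have h1 := sum_jk s
      rw [← hJ, ← hK0] at h1
      have h2 : ∑ i ∈ Finset.range (s + 1), (min i J + min (s - i) K0)
          = ∑ i ∈ Finset.range (s + 1), (min i J + min (s - i) K0 - 1) + (s + 1) := by
        have h3 : ∑ i ∈ Finset.range (s + 1), 1 = s + 1 := by simp
        have h4 : ∑ i ∈ Finset.range (s + 1), (min i J + min (s - i) K0)
            = ∑ i ∈ Finset.range (s + 1), ((min i J + min (s - i) K0 - 1) + 1) := ?_
        · rw [h4, Finset.sum_add_distrib, h3]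
        apply Finset.sum_congr rfl
        intro i hi
        rw [Finset.mem_range] at hi
        omega
      omega
    rw [hT] at hL
    exact hL.trans hU
  · right
    refine ⟨r, hr2, hrs, ?_⟩
    -- `(s-1)A` and `(s-r)A - A` lie in the same coset of `K`
    obtain ⟨p, hp⟩ : ∃ p, s = p + 1 := ⟨s - 1, by omega⟩
    obtain ⟨w, hw⟩ : ∃ w, s = r + w := ⟨s - r, by omega⟩
    have hdiff : (w • x - 1 • x) - (p • x - 0 • x) ∈ K := by
      have : (w • x - 1 • x) - (p • x - 0 • x) = -(r • x) := by
        have h1 : p • x + x = r • x + w • x := by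
          rw [← succ_nsmul, ← add_nsmul, ← hp, ← hw]
        have h2 : r • x = p • x + x - w • x := by rw [h1]; abel
        rw [h2, one_nsmul, zero_nsmul]; abel
      rw [this]
      exact K.neg_mem hrx
    obtain ⟨z1, hz1, hz1'⟩ := hnf p 0 w 1 (by omega) (by omega) (by omega) hdiff
    obtain ⟨z2, hz2, hz2'⟩ := hnf w 1 p 0 (by omega) (by omega) (by omega) (by
      have : (p • x - 0 • x) - (w • x - 1 • x) = -((w • x - 1 • x) - (p • x - 0 • x)) := by abel
      rw [this]
      exact K.neg_mem hdiff)
    have g1 := hgr p 0 (by omega) z1 hz1 hz1'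
    have g2 := hgr w 1 (by omega) z2 hz2 hz2'
    have hd : Disjoint (S A p 0) (S A w 1) := S_disjoint hA (by omega) (by omega) (by omega)
    have hun : ((S A p 0) ∪ (S A w 1)).card ≤ Kf.card := by
      apply hcoset _ (p • x - 0 • x)
      intro y hy
      rcases Finset.mem_union.1 hy with hy | hy
      · exact S_coset K x hAK p 0 y hy
      · have h1 := K.add_mem (S_coset K x hAK w 1 y hy) hdiff
        have h2 : y - (w • x - 1 • x) + ((w • x - 1 • x) - (p • x - 0 • x))
            = y - (p • x - 0 • x) := sub_add_sub_cancel _ _ _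
        rw [← h2]
        exact h1
    rw [Finset.card_union_of_disjoint hd] at hun
    have hle : 2 * A.card + (2 * s - r - 2) * (u * h) ≤ Kf.card := by
      have e : 2 * s - r - 2 = (p + 0 - 1) + (w + 1 - 1) := by omega
      rw [e, Nat.add_mul]
      omega
    exact (Nat.mul_le_mul_left r hle).trans hrK

end Pool.Agent.Helper95.SF
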