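import Mathlib
import Pool.Agent.Helper95.SF.Core

/-!
`[0,s]`-sum-free sets in finite abelian groups: `μ(G,[0,s])` and lower bounds.
-/

open Finset
open scoped Pointwise

namespace Pool.Agent.Helper95.SF

/-- `μ(G,[0,s])`, the largest size of a `[0,s]`-sum-free subset of `G` -/
noncomputable def mu (G : Type*) [AddCommGroup G] [DecidableEq G] (s : ℕ) : ℕ :=
  sSup {c | ∃ A : Finset G, IsSumFree s A ∧ A.card = c}

section basic

variable {G : Type*} [AddCommGroup G] [DecidableEq G]

theorem isSumFree_empty (s : ℕ) : IsSumFree s (∅ : Finset G) := by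
  intro h₁ h₂ _ _ hne
  have key : ∀ h : ℕ, 0 < h → nsum (∅ : Finset G) h = ∅ := by
    intro h hh
    obtain ⟨k, rfl⟩ : ∃ k, h = k + 1 := ⟨h - 1, by omega⟩
    rw [nsum_succ]
    simp
  rcases Nat.eq_zero_or_pos h₁ with h0 | h0
  · rw [key h₂ (by omega)]; simp
  · rw [key h₁ h0]; simp

theorem mu_isGreatest [Finite G] (s : ℕ) :
    IsGreatest {c | ∃ A : Finset G, IsSumFree s A ∧ A.card = c} (mu G s) := by
  classical
  have := Fintype.ofFinite G
  have hne : {c | ∃ A : Finset G, IsSumFree s A ∧ A.card = c}.Nonempty :=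
    ⟨0, ∅, isSumFree_empty s, rfl⟩
  have hbdd : BddAbove {c | ∃ A : Finset G, IsSumFree s A ∧ A.card = c} := by
    refine ⟨Fintype.card G, ?_⟩
    rintro c ⟨A, _, rfl⟩
    exact Finset.card_le_univ _
  exact ⟨Nat.sSup_mem hne hbdd, fun c hc => le_csSup hbdd hc⟩

theorem card_le_mu [Finite G] {s : ℕ} {A : Finset G} (hA : IsSumFree s A) : A.card ≤ mu G s :=
  (mu_isGreatest s).2 ⟨A, hA, rfl⟩

end basic

/-! ### A finite abelian group maps onto the cyclic group whose order is its exponent -/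

theorem exists_surj_mul (H : Type*) [CommGroup H] [Finite H] :
    ∃ φ : H →* Multiplicative (ZMod (Monoid.exponent H)), Function.Surjective φ := by
  classical
  have hκpos : Monoid.exponent H ≠ 0 := Monoid.exponent_ne_zero_of_finite
  obtain ⟨e⟩ := CommGroup.monoidHom_mulEquiv_of_hasEnoughRootsOfUnity H ℂ
  obtain ⟨g, hg⟩ := Monoid.exists_orderOf_eq_exponent (G := H) Monoid.ExponentExists.of_finite
  obtain ⟨χ, hχord⟩ : ∃ χ : H →* ℂˣ, orderOf χ = Monoid.exponent H :=
    ⟨e.symm g, by rw [MulEquiv.orderOf_eq e.symm g, hg]⟩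
  have hfin : Finite χ.range := Set.finite_range χ |>.to_subtype
  have hcyc : IsCyclic χ.range := inferInstance
  have hcard : Nat.card χ.range = Monoid.exponent H := by
    apply Nat.dvd_antisymm
    · rw [← IsCyclic.exponent_eq_card (α := χ.range)]
      apply Monoid.exponent_dvd_of_forall_pow_eq_one
      intro z
      obtain ⟨y, hy⟩ := z.2
      apply Subtype.ext
      rw [Subgroup.coe_pow, ← hy, ← map_pow, Monoid.pow_exponent_eq_one, map_one]
      rfl
    · rw [← hχord]
      apply orderOf_dvd_of_pow_eq_one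
      apply MonoidHom.ext
      intro y
      have h1 : (χ.rangeRestrict y) ^ Nat.card χ.range = 1 := pow_card_eq_one'
      have h2 := congrArg Subtype.val h1
      rw [Subgroup.coe_pow] at h2
      exact h2
  have e2 : Multiplicative (ZMod (Nat.card χ.range)) ≃* χ.range := zmodCyclicMulEquiv hcyc
  rw [hcard] at e2
  exact ⟨(e2.symm.toMonoidHom).comp χ.rangeRestrict,
    e2.symm.surjective.comp χ.rangeRestrict_surjective⟩

theorem exists_surj (G : Type*) [AddCommGroup G] [Finite G] (d : ℕ)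
    (hd : d ∣ AddMonoid.exponent G) : ∃ ψ : G →+ ZMod d, Function.Surjective ψ := by
  have hexp : Monoid.exponent (Multiplicative G) = AddMonoid.exponent G :=
    Monoid.exponent_multiplicative
  have hex := exists_surj_mul (Multiplicative G)
  rw [hexp] at hex
  obtain ⟨φ, hφ⟩ := hex
  let ψ₀ : G →+ ZMod (AddMonoid.exponent G) :=
    { toFun := fun x => (φ (Multiplicative.ofAdd x)).toAdd
      map_zero' := by simp
      map_add' := fun x y => by simp }
  have hψ₀ : Function.Surjective ψ₀ := by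
    intro z
    obtain ⟨y, hy⟩ := hφ (Multiplicative.ofAdd z)
    exact ⟨y.toAdd, congrArg Multiplicative.toAdd hy⟩
  refine ⟨((ZMod.castHom hd (ZMod d)).toAddMonoidHom).comp ψ₀, ?_⟩
  exact (ZMod.castHom_surjective hd).comp hψ₀

/-! ### Lower bounds -/

theorem card_fiber {G : Type*} [AddCommGroup G] [Fintype G] {d : ℕ} [NeZero d]
    (ψ : G →+ ZMod d) (hψ : Function.Surjective ψ) (b : ZMod d) :
    (Finset.univ.filter (fun g => ψ g = b)).card * d = Fintype.card G := by
  classical
  have h1 : Fintype.card G = ∑ c : ZMod d, (Finset.univ.filter (fun g => ψ g = c)).card := by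
    rw [← Finset.card_univ]
    exact Finset.card_eq_sum_card_fiberwise (fun x _ => Finset.mem_univ _)
  have h2 : ∀ c : ZMod d, (Finset.univ.filter (fun g => ψ g = c)).card
      = (Finset.univ.filter (fun g => ψ g = b)).card := fun c =>
    AddMonoidHom.card_fiber_eq_of_mem_range ψ (hψ c) (hψ b)
  rw [h1, Finset.sum_congr rfl (fun c _ => h2 c), Finset.sum_const, Finset.card_univ,
    ZMod.card, smul_eq_mul, mul_comm]

theorem pull {G : Type*} [AddCommGroup G] [DecidableEq G] [Fintype G] {d : ℕ} [NeZero d]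
    (ψ : G →+ ZMod d) (hψ : Function.Surjective ψ) (s : ℕ) (B : Finset (ZMod d))
    (hB : IsSumFree s B) :
    ∃ A : Finset G, IsSumFree s A ∧ A.card * d = B.card * Fintype.card G := by
  classical
  refine ⟨Finset.univ.filter (fun g => ψ g ∈ B), ?_, ?_⟩
  · set A : Finset G := Finset.univ.filter (fun g => ψ g ∈ B) with hA
    have key : ∀ h : ℕ, ∀ y ∈ nsum A h, ψ y ∈ nsum B h := by
      intro h
      induction h with
      | zero =>
        intro y hy
        rw [nsum_zero, Finset.mem_singleton] at hy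
        subst hy
        rw [nsum_zero, Finset.mem_singleton, map_zero]
      | succ h ih =>
        intro y hy
        rw [nsum_succ] at hy
        obtain ⟨a, ha, b, hb, rfl⟩ := Finset.mem_add.1 hy
        rw [nsum_succ, map_add]
        refine Finset.add_mem_add (ih a ha) ?_
        rw [hA, Finset.mem_filter] at hb
        exact hb.2
    intro h₁ h₂ hh₁ hh₂ hne
    have h3 := hB h₁ h₂ hh₁ hh₂ hne
    rw [Finset.disjoint_left] at h3 ⊢
    intro y hy1 hy2
    exact h3 (key _ y hy1) (key _ y hy2)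
  · have h1 : (Finset.univ.filter (fun g => ψ g ∈ B)).card
        = ∑ b ∈ B, (Finset.univ.filter (fun g => ψ g = b)).card := by
      rw [Finset.card_eq_sum_card_fiberwise (f := ψ) (t := B) (by
        intro x hx
        simpa using hx)]
      apply Finset.sum_congr rfl
      intro b hb
      congr 1
      ext g
      simp only [Finset.mem_filter, Finset.mem_univ, true_and]
      constructor
      · exact fun h => h.2
      · intro h
        exact ⟨h ▸ hb, h⟩
    rw [h1, Finset.sum_mul, Finset.sum_congr rfl (fun b _ => card_fiber ψ hψ b),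
      Finset.sum_const, smul_eq_mul]

theorem mul_mu_le (G : Type*) [AddCommGroup G] [DecidableEq G] [Fintype G] (s d : ℕ)
    (hd : d ∣ AddMonoid.exponent G) :
    mu (ZMod d) s * Fintype.card G ≤ mu G s * d := by
  have hdpos : d ≠ 0 := by
    rintro rfl
    exact AddMonoid.exponent_ne_zero_of_finite (zero_dvd_iff.1 hd)
  have : NeZero d := ⟨hdpos⟩
  obtain ⟨ψ, hψ⟩ := exists_surj G d hd
  obtain ⟨B, hB, hBc⟩ := (mu_isGreatest (G := ZMod d) s).1
  obtain ⟨A, hA, hAc⟩ := pull ψ hψ s B hB
  rw [← hBc, ← hAc]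
  exact Nat.mul_le_mul_right _ (card_le_mu hA)

/-- intervals in cyclic groups -/
theorem interval (s d α β : ℕ) (hlt : β < α + d)
    (H : ∀ h h' : ℕ, h < h' → h' ≤ s → ∀ v v' : ℕ, h * α ≤ v → v ≤ h * β → h' * α ≤ v' →
      v' ≤ h' * β → ¬ (v ≡ v' [MOD d])) :
    ∃ B : Finset (ZMod d), IsSumFree s B ∧ B.card = β + 1 - α := by
  classical
  refine ⟨(Finset.Icc α β).image (fun v : ℕ => (v : ZMod d)), ?_, ?_⟩
  · set B : Finset (ZMod d) := (Finset.Icc α β).image (fun v : ℕ => (v : ZMod d)) with hB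
    have key : ∀ h : ℕ, ∀ y ∈ nsum B h, ∃ v : ℕ, h * α ≤ v ∧ v ≤ h * β ∧ (v : ZMod d) = y := by
      intro h
      induction h with
      | zero =>
        intro y hy
        rw [nsum_zero, Finset.mem_singleton] at hy
        subst hy
        exact ⟨0, by simp, by simp, by simp⟩
      | succ h ih =>
        intro y hy
        rw [nsum_succ] at hy
        obtain ⟨a, ha, b, hb, rfl⟩ := Finset.mem_add.1 hy
        obtain ⟨v, h1, h2, rfl⟩ := ih a ha
        rw [hB, Finset.mem_image] at hb
        obtain ⟨w, hw, rfl⟩ := hb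
        rw [Finset.mem_Icc] at hw
        refine ⟨v + w, ?_, ?_, by push_cast; ring⟩
        · rw [Nat.add_mul, Nat.one_mul]; omega
        · rw [Nat.add_mul, Nat.one_mul]; omega
    have main : ∀ h h' : ℕ, h < h' → h' ≤ s → Disjoint (nsum B h) (nsum B h') := by
      intro h h' hlt' hle
      rw [Finset.disjoint_left]
      intro y hy hy'
      obtain ⟨v, h1, h2, h3⟩ := key h y hy
      obtain ⟨v', h1', h2', h3'⟩ := key h' y hy'
      apply H h h' hlt' hle v v' h1 h2 h1' h2'
      rw [← ZMod.natCast_eq_natCast_iff, h3, h3']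
    intro h₁ h₂ hh₁ hh₂ hne
    rcases Nat.lt_or_ge h₁ h₂ with hlt' | hge
    · exact main h₁ h₂ hlt' hh₂
    · exact (main h₂ h₁ (by omega) hh₁).symm
  · rw [Finset.card_image_of_injOn, Nat.card_Icc]
    intro v hv w hw hvw
    simp only [Finset.coe_Icc, Set.mem_Icc] at hv hw
    simp only at hvw
    rw [ZMod.natCast_eq_natCast_iff] at hvw
    have hdvd := (Nat.modEq_iff_dvd.1 hvw)
    obtain ⟨c, hc⟩ := hdvd
    have hc0 : c = 0 := by
      by_contra hne
      rcases lt_or_gt_of_ne hne with hneg | hpos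
      · have : (d : ℤ) * c ≤ (d : ℤ) * (-1) := by
          apply mul_le_mul_of_nonneg_left (by omega) (by omega)
        omega
      · have : (d : ℤ) * 1 ≤ (d : ℤ) * c := by
          apply mul_le_mul_of_nonneg_left (by omega) (by omega)
        omega
    rw [hc0, mul_zero] at hc
    omega

/-- an interval of `c` elements in `ZMod d`, no wrap-around -/
theorem interval_plain (s d : ℕ) (hs : 1 ≤ s) (hsd : s < d) :
    ∃ B : Finset (ZMod d), IsSumFree s B ∧ B.card = (d - s - 1) / s ^ 2 + 1 := by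
  have hc1 : s ^ 2 * ((d - s - 1) / s ^ 2) ≤ d - s - 1 := Nat.mul_div_le _ _
  generalize (d - s - 1) / s ^ 2 = c at hc1 ⊢
  obtain ⟨p, rfl⟩ : ∃ p, s = p + 1 := ⟨s - 1, by omega⟩
  have hup : (p + 1) * (p * c + 1 + c) < d := by
    have e : (p + 1) * (p * c + 1 + c) = (p + 1) ^ 2 * c + (p + 1) := by ring
    rw [e]
    omega
  obtain ⟨B, hB, hBc⟩ := interval (p + 1) d (p * c + 1) (p * c + 1 + c)
    (by
      have : p * c + 1 + c ≤ (p + 1) * (p * c + 1 + c) := Nat.le_mul_of_pos_left _ (by omega)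
      omega) (by
    intro h h' hlt hle v v' h1 h2 h1' h2' hcong
    have h3 : h ≤ p := by omega
    have h4 : h * (p * c + 1 + c) < (h + 1) * (p * c + 1) := by
      have : h * c ≤ p * c := Nat.mul_le_mul_right _ h3
      nlinarith
    have h5 : (h + 1) * (p * c + 1) ≤ h' * (p * c + 1) := Nat.mul_le_mul_right _ (by omega)
    have h6 : h' * (p * c + 1 + c) ≤ (p + 1) * (p * c + 1 + c) := Nat.mul_le_mul_right _ hle
    have h7 : v < v' := by omega
    have h8 : v' < d := by omega
    have h9 := Nat.ModEq.eq_of_lt_of_lt hcong (by omega) h8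
    omega)
  refine ⟨B, hB, ?_⟩
  rw [hBc]
  omega

/-- two elements in `ZMod (3t²+3t+1)`, with wrap-around -/
theorem interval_hex (t : ℕ) (ht : 1 ≤ t) :
    ∃ B : Finset (ZMod (3 * t ^ 2 + 3 * t + 1)), IsSumFree (2 * t) B ∧ B.card = 2 := by
  obtain ⟨B, hB, hBc⟩ := interval (2 * t) (3 * t ^ 2 + 3 * t + 1) (3 * t + 1) (3 * t + 2)
    (by nlinarith) (by
    intro h h' hlt hle v v' h1 h2 h1' h2' hcong
    obtain ⟨p, rfl⟩ : ∃ p, h' = h + p := ⟨h' - h, by omega⟩
    have hp : 1 ≤ p := by omega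
    have hdvd := Nat.modEq_iff_dvd.1 hcong
    obtain ⟨c, hc⟩ := hdvd
    -- bounds on `v' - v`
    have b1 : (p * (3 * t + 1) : ℤ) - h ≤ (v' : ℤ) - v := by
      have e1 : ((h + p : ℕ) : ℤ) * (3 * t + 1) ≤ v' := by exact_mod_cast h1'
      have e2 : (v : ℤ) ≤ h * (3 * t + 2) := by exact_mod_cast h2
      push_cast at e1
      nlinarith
    have b2 : (v' : ℤ) - v ≤ p * (3 * t + 2) + h := by
      have e1 : (v' : ℤ) ≤ ((h + p : ℕ) : ℤ) * (3 * t + 2) := by exact_mod_cast h2'
      have e2 : (h : ℤ) * (3 * t + 1) ≤ v := by exact_mod_cast h1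
      push_cast at e1
      nlinarith
    have hle' : (h : ℤ) + p ≤ 2 * t := by exact_mod_cast hle
    have hp' : (1 : ℤ) ≤ p := by exact_mod_cast hp
    have ht' : (1 : ℤ) ≤ t := by exact_mod_cast ht
    have hh' : (0 : ℤ) ≤ h := by positivity
    push_cast at hc
    rw [hc] at b1 b2
    rcases Nat.lt_or_ge t p with hpt | hpt
    · -- values in `(D, 2D)`
      have hpt' : (t : ℤ) + 1 ≤ p := by exact_mod_cast hpt
      have c1 : (1 : ℤ) < c := by
        by_contra hcon
        have hcon' : c ≤ 1 := by omega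
        have : (3 * (t : ℤ) ^ 2 + 3 * t + 1) * c ≤ (3 * (t : ℤ) ^ 2 + 3 * t + 1) * 1 :=
          mul_le_mul_of_nonneg_left hcon' (by positivity)
        nlinarith
      have : (3 * (t : ℤ) ^ 2 + 3 * t + 1) * 2 ≤ (3 * (t : ℤ) ^ 2 + 3 * t + 1) * c :=
        mul_le_mul_of_nonneg_left (by omega) (by positivity)
      nlinarith
    · have hpt' : (p : ℤ) ≤ t := by exact_mod_cast hpt
      have c1 : (0 : ℤ) < c := by
        by_contra hcon
        have hcon' : c ≤ 0 := by omega
        have : (3 * (t : ℤ) ^ 2 + 3 * t + 1) * c ≤ (3 * (t : ℤ) ^ 2 + 3 * t + 1) * 0 :=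
          mul_le_mul_of_nonneg_left hcon' (by positivity)
        nlinarith
      have : (3 * (t : ℤ) ^ 2 + 3 * t + 1) * 1 ≤ (3 * (t : ℤ) ^ 2 + 3 * t + 1) * c :=
        mul_le_mul_of_nonneg_left (by omega) (by positivity)
      nlinarith)
  refine ⟨B, hB, ?_⟩
  rw [hBc]
  omega

end Pool.Agent.Helper95.SF
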