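import Mathlib
import Pool.Agent.Helper95.SF.Lower

/-!
`[0,s]`-sum-free sets in finite abelian groups: upper bounds.
-/

open Finset
open scoped Pointwise

namespace Pool.Agent.Helper95.SF

theorem D_le_iff (s x : ℕ) (h : 3 * (s + 1) ^ 2 ≤ 4 * x) : D s ≤ x := by
  unfold D
  omega

theorem D_ge (s : ℕ) (hs : 2 ≤ s) : 2 * (s + 1) + 1 ≤ D s := by
  unfold D
  have : 3 * (s + 1) ^ 2 ≥ 9 * (s + 1) := by nlinarith
  omega

theorem rr1 (s r : ℕ) (h1 : s + 2 ≤ 2 * r) (h2 : r ≤ s) : D s ≤ r * (2 * s - r) + (s + 1) := by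
  obtain ⟨w, rfl⟩ : ∃ w, s = r + w := ⟨s - r, by omega⟩
  obtain ⟨v, rfl⟩ : ∃ v, r = w + 2 + v := ⟨r - w - 2, by omega⟩
  have e : 2 * (w + 2 + v + w) - (w + 2 + v) = 3 * w + 2 + v := by omega
  rw [e]
  apply D_le_iff
  nlinarith

theorem rr2 (s r : ℕ) (h1 : s + 2 ≤ 2 * r) (h2 : r ≤ s) : D s ≤ r * (2 * s + 2 - r) := by
  obtain ⟨w, rfl⟩ : ∃ w, s = r + w := ⟨s - r, by omega⟩
  obtain ⟨v, rfl⟩ : ∃ v, r = w + 2 + v := ⟨r - w - 2, by omega⟩
  have e : 2 * (w + 2 + v + w) + 2 - (w + 2 + v) = 3 * w + 4 + v := by omega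
  rw [e]
  apply D_le_iff
  nlinarith

/-- the bound `|A| ≤ max (n / m, 2 n / D)` -/
theorem upper_half {G : Type*} [AddCommGroup G] [DecidableEq G] [Fintype G] (s m : ℕ)
    (hs : 2 ≤ s) (hm : ∀ e : ℕ, e ∣ AddMonoid.exponent G → s < e → m ≤ e)
    (A : Finset G) (hA : IsSumFree s A) :
    A.card * m ≤ Fintype.card G ∨ D s * A.card ≤ 2 * Fintype.card G := by
  rcases A.eq_empty_or_nonempty with rfl | hne
  · left; simp
  rcases core s hs A hA hne m hm with h | ⟨h, u, hh, hu, -, hAu, -, hc⟩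
  · exact Or.inl h
  right
  obtain ⟨F, hF⟩ : ∃ F, D s = F + 2 * (s + 1) := ⟨D s - 2 * (s + 1), by have := D_ge s hs; omega⟩
  have hAu2 : A.card ≤ 2 * (u * h) := by
    calc A.card ≤ (u + 1) * h := hAu
      _ = u * h + h := by ring
      _ ≤ u * h + u * h := by nlinarith
      _ = 2 * (u * h) := by ring
  rcases hc with hc | ⟨r, hr1, hr2, hc⟩
  · have e : D s - 2 * (s + 1) = F := by omega
    rw [e] at hc
    rw [hF]
    have : F * A.card ≤ F * (2 * (u * h)) := Nat.mul_le_mul_left _ hAu2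
    nlinarith
  · have h1 := rr2 s r hr1 hr2
    obtain ⟨c, hc'⟩ : ∃ c, 2 * s - r - 2 = c := ⟨_, rfl⟩
    have h3 : c + 2 + r = 2 * s := by omega
    rw [hc'] at hc
    have h4 : 2 * s + 2 - r = c + 4 := by omega
    rw [h4] at h1
    have h5 : c * A.card ≤ c * (2 * (u * h)) := Nat.mul_le_mul_left _ hAu2
    calc D s * A.card ≤ r * (c + 4) * A.card := Nat.mul_le_mul_right _ h1
      _ = r * (c * A.card + 4 * A.card) := by ring
      _ ≤ r * (c * (2 * (u * h)) + 4 * A.card) := by
          apply Nat.mul_le_mul_left; omega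
      _ = 2 * (r * (2 * A.card + c * (u * h))) := by ring
      _ ≤ 2 * Fintype.card G := by omega

theorem arith1 (s a b d n q h u w F : ℕ) (hn : n = q * h)
    (hc : (s + 1) * a + F * (u * h) ≤ n) (hlt : b * n < a * d) (hwu : w ≤ u)
    (h3 : q * d ≤ (s + 1) * b * q + F * d * w) : False := by
  have e1 : ((s + 1) * a + F * (u * h)) * d ≤ n * d := Nat.mul_le_mul_right _ hc
  have e2 : n * d = h * (q * d) := by rw [hn]; ring
  have e3 : h * (q * d) ≤ h * ((s + 1) * b * q + F * d * w) := Nat.mul_le_mul_left _ h3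
  have e4 : h * ((s + 1) * b * q + F * d * w) = (s + 1) * (b * n) + F * d * h * w := by
    rw [hn]; ring
  have e5 : F * d * h * w ≤ F * d * h * u := Nat.mul_le_mul_left _ hwu
  have e6 : (s + 1) * (b * n) < (s + 1) * (a * d) := Nat.mul_lt_mul_of_pos_left hlt (by omega)
  have e7 : ((s + 1) * a + F * (u * h)) * d = (s + 1) * (a * d) + F * d * h * u := by ring
  omega

theorem arith2 (s a b d n q h u F r c : ℕ) (hu : 1 ≤ u) (hd : 1 ≤ d)
    (hn : n = q * h)
    (hc : r * (2 * a + c * (u * h)) ≤ n) (hlt : b * n < a * d) (hr1 : s + 2 ≤ 2 * r)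
    (hwu : b * q / d ≤ u)
    (hE : F + (s + 1) ≤ r * (c + 2)) (h2 : d ≤ b * (F + (s + 1)))
    (h3 : q * d ≤ (s + 1) * b * q + F * d * max 1 (b * q / d)) : False := by
  have hrpos : 1 ≤ r := by omega
  -- the basic inequality, for every `w ≤ u`
  have basic : ∀ w : ℕ, w ≤ u → 2 * r * b * q + r * c * d * w < q * d := by
    intro w hw
    have e1 : (r * (2 * a + c * (u * h))) * d ≤ n * d := Nat.mul_le_mul_right _ hc
    have e2 : n * d = (q * d) * h := by rw [hn]; ring
    have e3 : (r * (2 * a + c * (u * h))) * d = 2 * r * (a * d) + r * c * d * h * u := by ring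
    have e4 : 2 * r * (b * n) < 2 * r * (a * d) := Nat.mul_lt_mul_of_pos_left hlt (by omega)
    have e5 : r * c * d * h * w ≤ r * c * d * h * u := Nat.mul_le_mul_left _ hw
    have e6 : 2 * r * (b * n) + r * c * d * h * w = (2 * r * b * q + r * c * d * w) * h := by
      rw [hn]; ring
    have e7 : (2 * r * b * q + r * c * d * w) * h < (q * d) * h := by omega
    exact lt_of_mul_lt_mul_right e7 (Nat.zero_le _)
  rcases Nat.lt_or_ge (b * q) d with hbq | hbq
  · -- `b q < d`
    have h4 := basic 1 hu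
    rw [Nat.mul_one] at h4
    have h4' : 2 * r * b * q + r * c * d < q * d := h4
    -- pass to integers
    zify at *
    have k1 : (0 : ℤ) < d - 2 * r * b := by
      by_contra hcon
      have : (q : ℤ) * (d - 2 * r * b) ≤ 0 :=
        mul_nonpos_of_nonneg_of_nonpos (by positivity) (by linarith)
      have h5 : (0 : ℤ) ≤ r * c * d := by positivity
      nlinarith
    have k2 : (b : ℤ) * (r * c * d) ≤ (b : ℤ) * (q * (d - 2 * r * b)) := by
      apply mul_le_mul_of_nonneg_left _ (by positivity)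
      nlinarith
    have k3 : (b * q : ℤ) * (d - 2 * r * b) < d * (d - 2 * r * b) :=
      mul_lt_mul_of_pos_right hbq k1
    have k4 : (d : ℤ) * (b * r * c) < d * (d - 2 * r * b) := by nlinarith
    have hdpos : (0 : ℤ) < d := by linarith
    have k5 : (b * r * c : ℤ) < d - 2 * r * b := lt_of_mul_lt_mul_left k4 hdpos.le
    have k6 : (b : ℤ) * (F + (s + 1)) ≤ b * (r * (c + 2)) :=
      mul_le_mul_of_nonneg_left hE (by positivity)
    nlinarith
  · have hw1 : 1 ≤ b * q / d := (Nat.one_le_div_iff (by omega)).2 hbq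
    have hmax : max 1 (b * q / d) = b * q / d := by omega
    rw [hmax] at h3
    have hwd : (b * q / d) * d ≤ b * q := Nat.div_mul_le_self _ _
    have h4 := basic _ hwu
    generalize b * q / d = w at *
    obtain ⟨v, hv⟩ : ∃ v, 2 * r = (s + 1) + v := ⟨2 * r - (s + 1), by omega⟩
    have e1 : 2 * r * b * q = (s + 1) * b * q + v * (b * q) := by rw [hv]; ring
    have e2 : v * (w * d) ≤ v * (b * q) := Nat.mul_le_mul_left _ hwd
    have e3 : v * (w * d) + r * c * d * w < F * d * w := by omega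
    have e4 : (v + r * c) * (w * d) < F * (w * d) := by nlinarith
    have e5 : v + r * c < F := lt_of_mul_lt_mul_right e4 (Nat.zero_le _)
    have e6 : r * (c + 2) = r * c + 2 * r := by ring
    omega

/-- the general upper bound `|A| ≤ (b / d) |G|` -/
theorem upper_general {G : Type*} [AddCommGroup G] [DecidableEq G] [Fintype G] (s m b d : ℕ)
    (hs : 2 ≤ s) (hm : ∀ e : ℕ, e ∣ AddMonoid.exponent G → s < e → m ≤ e) (hd : 1 ≤ d)
    (h1 : d ≤ b * m) (h2 : d ≤ b * (D s - (s + 1)))
    (h3 : ∀ q : ℕ, q ∣ Fintype.card G → 3 ≤ q →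
      q * d ≤ (s + 1) * b * q + (D s - 2 * (s + 1)) * d * max 1 (b * q / d))
    (A : Finset G) (hA : IsSumFree s A) : A.card * d ≤ b * Fintype.card G := by
  rcases A.eq_empty_or_nonempty with rfl | hne
  · simp
  by_contra hlt
  rw [not_le] at hlt
  rcases core s hs A hA hne m hm with h | ⟨h, u, hh, hu, hhG, hAu, hlG, hc⟩
  · have : A.card * d ≤ b * (A.card * m) := by
      calc A.card * d ≤ A.card * (b * m) := Nat.mul_le_mul_left _ h1
        _ = b * (A.card * m) := by ring
    have h5 : b * (A.card * m) ≤ b * Fintype.card G := Nat.mul_le_mul_left _ h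
    omega
  obtain ⟨q, hq⟩ := hhG
  have hq' : Fintype.card G = q * h := by rw [hq, mul_comm]
  have hqu : u + 1 < q := by
    rw [hq'] at hlG
    exact lt_of_mul_lt_mul_right hlG (Nat.zero_le _)
  have hcond := h3 q ⟨h, hq'⟩ (by omega)
  have hwu : b * q / d ≤ u := by
    have e1 : A.card * d ≤ (u + 1) * h * d := Nat.mul_le_mul_right _ hAu
    have e2 : (b * q) * h < ((u + 1) * d) * h := by
      calc (b * q) * h = b * (q * h) := by ring
        _ = b * Fintype.card G := by rw [hq']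
        _ < A.card * d := hlt
        _ ≤ (u + 1) * h * d := e1
        _ = ((u + 1) * d) * h := by ring
    have e3 : b * q < (u + 1) * d := lt_of_mul_lt_mul_right e2 (Nat.zero_le _)
    have e4 : b * q / d < u + 1 := (Nat.div_lt_iff_lt_mul (by omega)).2 e3
    omega
  have hDge := D_ge s hs
  rcases hc with hc | ⟨r, hr1, hr2, hc⟩
  · exact arith1 s A.card b d (Fintype.card G) q h u (max 1 (b * q / d)) _ hq' hc hlt
      (by omega) hcond
  · have hE := rr1 s r hr1 hr2
    refine arith2 s A.card b d (Fintype.card G) q h u (D s - 2 * (s + 1)) r (2 * s - r - 2)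
      hu hd hq' hc hlt hr1 hwu ?_ ?_ hcond
    · have e : 2 * s - r - 2 + 2 = 2 * s - r := by omega
      rw [e]
      omega
    · have e : D s - 2 * (s + 1) + (s + 1) = D s - (s + 1) := by omega
      rw [e]
      exact h2

end Pool.Agent.Helper95.SF
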