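import Mathlib
import Pool.Agent.Helper95.SF.Upper

/-!
`[0,s]`-sum-free sets in finite abelian groups: combining the two bounds.
-/

open Finset
open scoped Pointwise

namespace Pool.Agent.Helper95.SF

theorem one_le_mu_zmod (s d : ℕ) (hs : 1 ≤ s) (hsd : s < d) :
    (d - s - 1) / s ^ 2 + 1 ≤ mu (ZMod d) s := by
  have : NeZero d := ⟨by omega⟩
  obtain ⟨B, hB, hBc⟩ := interval_plain s d hs hsd
  rw [← hBc]
  exact card_le_mu hB

theorem card_div_mul {G : Type*} [AddCommGroup G] [DecidableEq G] [Fintype G] (s d b : ℕ)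
    (hd : d ∣ AddMonoid.exponent G) (hb : b ≤ mu (ZMod d) s) :
    Fintype.card G / d * b ≤ mu G s := by
  have hdpos : d ≠ 0 := by
    rintro rfl
    exact AddMonoid.exponent_ne_zero_of_finite (zero_dvd_iff.1 hd)
  have h1 := mul_mu_le G s d hd
  have h2 : Fintype.card G / d * d ≤ Fintype.card G := Nat.div_mul_le_self _ _
  have h3 : (Fintype.card G / d * b) * d ≤ mu G s * d := by
    calc (Fintype.card G / d * b) * d = (Fintype.card G / d * d) * b := by ring
      _ ≤ Fintype.card G * mu (ZMod d) s := Nat.mul_le_mul h2 hb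
      _ = mu (ZMod d) s * Fintype.card G := mul_comm _ _
      _ ≤ mu G s * d := h1
  exact Nat.le_of_mul_le_mul_right h3 (Nat.pos_of_ne_zero hdpos)

/-- the general reduction -/
theorem reduction {G : Type*} [AddCommGroup G] [DecidableEq G] [Fintype G] (s m b d : ℕ)
    (hs : 2 ≤ s) (hm : ∀ e : ℕ, e ∣ AddMonoid.exponent G → s < e → m ≤ e) (hd : 1 ≤ d)
    (hdκ : d ∣ AddMonoid.exponent G) (hb : b ≤ mu (ZMod d) s)
    (h1 : d ≤ b * m) (h2 : d ≤ b * (D s - (s + 1)))
    (h3 : ∀ q : ℕ, q ∣ Fintype.card G → 3 ≤ q →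
      q * d ≤ (s + 1) * b * q + (D s - 2 * (s + 1)) * d * max 1 (b * q / d)) :
    mu G s = Fintype.card G / d * b := by
  obtain ⟨A, hA, hAc⟩ := (mu_isGreatest (G := G) s).1
  have h4 := upper_general s m b d hs hm hd h1 h2 h3 A hA
  rw [hAc] at h4
  have h5 := card_div_mul s d b hdκ hb
  have h6 : Fintype.card G / d * d = Fintype.card G :=
    Nat.div_mul_cancel (hdκ.trans AddGroup.exponent_dvd_card)
  apply le_antisymm _ h5
  have h7 : mu G s * d ≤ (Fintype.card G / d * b) * d := by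
    calc mu G s * d ≤ b * Fintype.card G := h4
      _ = b * (Fintype.card G / d * d) := by rw [h6]
      _ = (Fintype.card G / d * b) * d := by ring
  exact Nat.le_of_mul_le_mul_right h7 (by omega)

/-- `p`-groups -/
theorem pgroup {G : Type*} [AddCommGroup G] [DecidableEq G] [Fintype G] (s m b p k : ℕ)
    (hs : 2 ≤ s) (hp : p.Prime) (hcard : Fintype.card G = p ^ k)
    (hm : IsLeast {d : ℕ | d ∣ AddMonoid.exponent G ∧ s < d} m)
    (hb : b ≤ mu (ZMod m) s) (hb1 : 1 ≤ b) (hE : m ≤ b * (D s - (s + 1))) :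
    mu G s = Fintype.card G / m * b := by
  obtain ⟨⟨hmκ, hsm⟩, hmin⟩ := hm
  have hκn : AddMonoid.exponent G ∣ Fintype.card G := AddGroup.exponent_dvd_card
  have hmn : m ∣ Fintype.card G := hmκ.trans hκn
  have hDge := D_ge s hs
  refine reduction s m b m hs (fun e h1 h2 => hmin ⟨h1, h2⟩) (by omega) hmκ hb
    (Nat.le_mul_of_pos_left _ hb1) hE ?_
  intro q hq hq3
  obtain ⟨i, -, rfl⟩ := (Nat.dvd_prime_pow hp).1 (hcard ▸ hq)
  obtain ⟨j, -, hj⟩ := (Nat.dvd_prime_pow hp).1 (hcard ▸ hmn)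
  obtain ⟨F, hF⟩ : ∃ F, D s = F + 2 * (s + 1) := ⟨D s - 2 * (s + 1), by omega⟩
  have e1 : D s - 2 * (s + 1) = F := by omega
  have e2 : D s - (s + 1) = F + (s + 1) := by omega
  rw [e2] at hE
  rw [e1]
  rcases Nat.lt_or_ge (p ^ i) m with hlt | hge
  · -- `q < m` forces `q ≤ s`
    have hij : i < j := by
      rw [hj] at hlt
      exact (Nat.pow_lt_pow_iff_right hp.one_lt).1 hlt
    have hqs : p ^ i ≤ s := by
      by_contra hcon
      have h4 : p ^ i ∣ AddMonoid.exponent G := by
        refine dvd_trans ?_ hmκ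
        rw [hj]
        exact pow_dvd_pow _ hij.le
      have h5 := hmin (show p ^ i ∈ {d : ℕ | d ∣ AddMonoid.exponent G ∧ s < d} from
        ⟨h4, by omega⟩)
      omega
    have hFs : s ≤ F := by
      have hs3 : 3 ≤ s := by omega
      have h4 : 3 * s + 2 ≤ D s := by
        unfold D
        have h5 : 4 * (3 * s + 2) ≤ 3 * (s + 1) ^ 2 + 3 := by nlinarith
        omega
      omega
    calc p ^ i * m ≤ F * m := Nat.mul_le_mul_right _ (by omega)
      _ = F * m * 1 := (Nat.mul_one _).symm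
      _ ≤ F * m * max 1 (b * p ^ i / m) := Nat.mul_le_mul_left _ (le_max_left _ _)
      _ ≤ _ := Nat.le_add_left _ _
  · have hji : j ≤ i := by
      rw [hj] at hge
      exact (Nat.pow_le_pow_iff_right hp.one_lt).1 hge
    have hdvd : m ∣ p ^ i := by rw [hj]; exact pow_dvd_pow _ hji
    obtain ⟨c, hc⟩ := hdvd
    have hcpos : 1 ≤ c := by
      rcases Nat.eq_zero_or_pos c with h0 | h0
      · rw [h0, Nat.mul_zero] at hc
        have := pow_pos hp.pos i
        omega
      · exact h0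
    have hdiv : b * p ^ i / m = b * c := by
      rw [hc, show b * (m * c) = m * (b * c) by ring]
      exact Nat.mul_div_cancel_left _ (by omega)
    have hbc : 1 ≤ b * c := Nat.mul_pos hb1 hcpos
    have hmax : max 1 (b * p ^ i / m) = b * c := by rw [hdiv]; omega
    rw [hmax]
    calc p ^ i * m ≤ p ^ i * (b * (F + (s + 1))) := Nat.mul_le_mul_left _ hE
      _ = (s + 1) * b * p ^ i + F * b * p ^ i := by ring
      _ = (s + 1) * b * p ^ i + F * m * (b * c) := by rw [hc]; ring

end Pool.Agent.Helper95.SF
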